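import Mathlib
import Pool.Agent.Y19.QT.Forms

set_option autoImplicit false

/-!
# Point counts of quadratic twists modulo `p` (project QT)
-/

namespace Pool.Agent.Y705.QT

open Pool.Agent.Y19.QT
open Pool.Agent.H306R2.RZ (js)

lemma ap_eq_sum (a b : ℤ) (p : ℕ) [Fact p.Prime] (hp : p ≠ 2) :
    ap a b p = -∑ x : ZMod p, quadraticChar (ZMod p) (x ^ 3 + (a : ZMod p) * x + (b : ZMod p)) := by
  classical
  unfold ap
  have hch : ringChar (ZMod p) ≠ 2 := by rwa [ZMod.ringChar_zmod_n]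
  have h1 : Nat.card {x : ZMod p × ZMod p //
      x.2 ^ 2 = x.1 ^ 3 + (a : ZMod p) * x.1 + (b : ZMod p)} =
      ∑ x : ZMod p, {y : ZMod p | y ^ 2 = x ^ 3 + (a : ZMod p) * x + (b : ZMod p)}.toFinset.card := by
    have e : {x : ZMod p × ZMod p // x.2 ^ 2 = x.1 ^ 3 + (a : ZMod p) * x.1 + (b : ZMod p)} ≃
        Σ x : ZMod p, {y : ZMod p // y ^ 2 = x ^ 3 + (a : ZMod p) * x + (b : ZMod p)} :=
      { toFun := fun q => ⟨q.1.1, q.1.2, q.2⟩
        invFun := fun q => ⟨(q.1, q.2.1), q.2.2⟩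
        left_inv := fun q => rfl
        right_inv := fun q => rfl }
    rw [Nat.card_congr e, Nat.card_eq_fintype_card, Fintype.card_sigma]
    refine Finset.sum_congr rfl fun x _ => ?_
    rw [Set.toFinset_card]
    rfl
  rw [h1, Nat.cast_sum, Finset.sum_congr rfl fun x _ =>
    quadraticChar_card_sqrts hch (x ^ 3 + (a : ZMod p) * x + (b : ZMod p)),
    Finset.sum_add_distrib]
  simp [ZMod.card]

lemma js_prime (d : ℤ) (p : ℕ) [Fact p.Prime] :
    js d p = ((quadraticChar (ZMod p) (d : ZMod p) : ℤ) : ℝ) := by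
  unfold js
  rw [← jacobiSym.legendreSym.to_jacobiSym]
  rfl

/-- the point counts of the quadratic twist -/
lemma ap_twist (a b d : ℤ) (p : ℕ) (hp : p.Prime) (h2 : p ≠ 2) (hd : ¬ (p : ℤ) ∣ d) :
    (ap (a * d ^ 2) (b * d ^ 3) p : ℝ) = js d p * ap a b p := by
  have : Fact p.Prime := ⟨hp⟩
  rw [ap_eq_sum _ _ p h2, ap_eq_sum _ _ p h2, js_prime]
  have hd0 : (d : ZMod p) ≠ 0 := by
    rwa [Ne, ZMod.intCast_zmod_eq_zero_iff_dvd]
  have h1 : ∑ x : ZMod p, quadraticChar (ZMod p) (x ^ 3 + ((a * d ^ 2 : ℤ) : ZMod p) * x +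
      ((b * d ^ 3 : ℤ) : ZMod p)) = quadraticChar (ZMod p) (d : ZMod p) *
      ∑ x : ZMod p, quadraticChar (ZMod p) (x ^ 3 + (a : ZMod p) * x + (b : ZMod p)) := by
    rw [Finset.mul_sum, ← Equiv.sum_comp (Equiv.mulLeft₀ (d : ZMod p) hd0)]
    refine Finset.sum_congr rfl fun x _ => ?_
    rw [← map_mul]
    have e : (Equiv.mulLeft₀ (d : ZMod p) hd0) x = (d : ZMod p) * x := rfl
    rw [e]
    have e2 : ((d : ZMod p) * x) ^ 3 + ((a * d ^ 2 : ℤ) : ZMod p) * ((d : ZMod p) * x) +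
        ((b * d ^ 3 : ℤ) : ZMod p) = (d : ZMod p) ^ 2 *
        ((d : ZMod p) * (x ^ 3 + (a : ZMod p) * x + (b : ZMod p))) := by
      push_cast
      ring
    rw [e2, map_mul, quadraticChar_sq_one' hd0, one_mul]
  rw [h1]
  push_cast
  ring

lemma one_sub_ap_pos (a b : ℤ) (p : ℕ) : 0 < (p : ℤ) - ap a b p + 1 := by
  unfold ap
  have : (0 : ℤ) ≤ Nat.card {x : ZMod p × ZMod p //
    x.2 ^ 2 = x.1 ^ 3 + (a : ZMod p) * x.1 + (b : ZMod p)} := by positivity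
  linarith

end Pool.Agent.Y705.QT
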