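import Mathlib
import Pool.Agent.Y19.QT.Defs

set_option autoImplicit false

/-!
# Arithmetic of Hecke eigenvalues (project QT)
-/

namespace Pool.Agent.Y705.QT

open Pool.Agent.Y19.QT
open Pool.Agent.H306R2.RZ (js)

/-! ### products over the factorization -/

/-- the function with values `∏_{p^k ‖ n} w p k` -/
noncomputable def fp (w : ℕ → ℕ → ℝ) (n : ℕ) : ℝ := if n = 0 then 0 else n.factorization.prod w

lemma fp_zero (w : ℕ → ℕ → ℝ) : fp w 0 = 0 := if_pos rfl

lemma fp_one (w : ℕ → ℕ → ℝ) : fp w 1 = 1 := by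
  unfold fp
  rw [if_neg one_ne_zero, Nat.factorization_one, Finsupp.prod_zero_index]

lemma fp_mul (w : ℕ → ℕ → ℝ) {m n : ℕ} (h : m.Coprime n) : fp w (m * n) = fp w m * fp w n := by
  rcases Nat.eq_zero_or_pos m with rfl | hm
  · have : n = 1 := by simpa using h
    subst this
    simp [fp_zero]
  rcases Nat.eq_zero_or_pos n with rfl | hn
  · have : m = 1 := by simpa using h
    subst this
    simp [fp_zero]
  unfold fp
  rw [if_neg (by positivity), if_neg hm.ne', if_neg hn.ne', Nat.factorization_mul_of_coprime h,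
    Finsupp.prod_add_index_of_disjoint]
  exact (Nat.disjoint_primeFactors hm.ne' hn.ne').mpr h

lemma fp_prime_pow (w : ℕ → ℕ → ℝ) {p k : ℕ} (hp : p.Prime) (hk : k ≠ 0) :
    fp w (p ^ k) = w p k := by
  unfold fp
  rw [if_neg (pow_ne_zero _ hp.ne_zero), hp.factorization_pow]
  rw [Finsupp.prod, Finsupp.support_single _ hk]
  simp

/-- as an arithmetic function -/
noncomputable def fpA (w : ℕ → ℕ → ℝ) : ArithmeticFunction ℝ := ⟨fp w, fp_zero w⟩

lemma fpA_apply (w : ℕ → ℕ → ℝ) (n : ℕ) : fpA w n = fp w n := rfl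

lemma fpA_mult (w : ℕ → ℕ → ℝ) : (fpA w).IsMultiplicative :=
  ⟨fp_one w, fun h => fp_mul w h⟩

/-! ### bounds -/

/-- Chebyshev type recursion -/
lemma cheb_bound (a : ℕ → ℝ) (l : ℝ) (hl : |l| ≤ 2) (h0 : a 0 = 1) (h1 : a 1 = l)
    (hr : ∀ k, a (k + 2) = l * a (k + 1) - a k) (k : ℕ) : |a k| ≤ k + 1 := by
  have hinv : ∀ k, a (k + 1) ^ 2 - l * a (k + 1) * a k + a k ^ 2 = 1 := by
    intro k
    induction k with
    | zero => rw [h0, h1]; ring
    | succ k ih => rw [hr k]; linarith [ih]
  have hstep : ∀ k, |a (k + 1)| ≤ |a k| + 1 := by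
    intro k
    have h2 := hinv k
    have h3 : l * a (k + 1) * a k ≤ 2 * |a (k + 1)| * |a k| := by
      calc l * a (k + 1) * a k ≤ |l * a (k + 1) * a k| := le_abs_self _
        _ = |l| * |a (k + 1)| * |a k| := by rw [abs_mul, abs_mul]
        _ ≤ 2 * |a (k + 1)| * |a k| := by gcongr
    have h4 : (|a (k + 1)| - |a k|) ^ 2 ≤ 1 := by
      nlinarith [sq_abs (a (k + 1)), sq_abs (a k)]
    have h5 := abs_le_one_iff_mul_self_le_one.mpr (by nlinarith : (|a (k + 1)| - |a k|) *
      (|a (k + 1)| - |a k|) ≤ 1)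
    linarith [le_abs_self (|a (k + 1)| - |a k|)]
  induction k with
  | zero => rw [h0]; simp
  | succ k ih =>
    have := hstep k
    push_cast
    linarith

variable {Q : ℕ} {lam : ℕ → ℝ}

lemma lam_prime_pow_le (H : Hecke Q lam) {p : ℕ} (hp : p.Prime) (k : ℕ) :
    |lam (p ^ k)| ≤ k + 1 := by
  by_cases hQ : p ∣ Q
  · rcases k with _ | k
    · simp [H.one]
    · rw [H.bad p k hp hQ, abs_zero]
      positivity
  · exact cheb_bound (fun k => lam (p ^ k)) (lam p) (H.bound p hp) (by simp [H.one]) (by simp)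
      (fun k => H.hrec p k hp hQ) k

lemma lam_le_divisors (H : Hecke Q lam) (n : ℕ) : |lam n| ≤ (n.divisors.card : ℝ) := by
  induction n using Nat.recOnPosPrimePosCoprime with
  | prime_pow p k hp _ =>
    rw [Nat.divisors_prime_pow hp, Finset.card_map, Finset.card_range]
    exact_mod_cast lam_prime_pow_le H hp k
  | zero => simp [H.zero]
  | one => simp [H.one]
  | coprime a b _ _ hab ha hb =>
    rw [H.mul a b hab, abs_mul, hab.card_divisors_mul]
    push_cast
    gcongr

lemma lam_le (H : Hecke Q lam) (n : ℕ) : |lam n| ≤ n :=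
  (lam_le_divisors H n).trans (by exact_mod_cast Nat.card_divisors_le_self n)

lemma not_dvd_big (H : Hecke Q lam) {p : ℕ} (hp : p.Prime) (hQ : ¬ p ∣ Q) : 17 ≤ p := by
  by_contra h
  exact hQ (H.small p hp (by omega))

/-! ### the Jacobi symbol -/

lemma js_mul (d : ℤ) {m n : ℕ} (hm : m ≠ 0) (hn : n ≠ 0) : js d (m * n) = js d m * js d n := by
  have : NeZero m := ⟨hm⟩
  have : NeZero n := ⟨hn⟩
  unfold js
  rw [jacobiSym.mul_right]
  push_cast
  rfl

lemma js_one (d : ℤ) : js d 1 = 1 := by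
  unfold js
  simp

lemma js_abs_le (d : ℤ) (n : ℕ) : |js d n| ≤ 1 := by
  unfold js
  rcases jacobiSym.trichotomy d n with h | h | h <;> rw [h] <;> norm_num

/-! ### the function `v` with `flat lam = lam * v` -/

/-- local values of `v` -/
noncomputable def vw (Q : ℕ) (lam : ℕ → ℝ) (p k : ℕ) : ℝ :=
  if p ∣ Q then 0 else if k = 2 then 1 - lam p ^ 2 else if k = 3 then lam p else 0

lemma flat_mul (H : Hecke Q lam) {m n : ℕ} (h : m.Coprime n) :
    flat lam (m * n) = flat lam m * flat lam n := by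
  unfold flat
  by_cases hm : Squarefree m <;> by_cases hn : Squarefree n
  · rw [if_pos ((Nat.squarefree_mul h).mpr ⟨hm, hn⟩), if_pos hm, if_pos hn, H.mul m n h]
  · rw [if_neg (fun hh => hn ((Nat.squarefree_mul h).mp hh).2), if_neg hn, mul_zero]
  · rw [if_neg (fun hh => hm ((Nat.squarefree_mul h).mp hh).1), if_neg hm, zero_mul]
  · rw [if_neg (fun hh => hn ((Nat.squarefree_mul h).mp hh).2), if_neg hn, mul_zero]

lemma flat_zero : flat lam 0 = 0 := if_neg not_squarefree_zero

lemma flat_one (H : Hecke Q lam) : flat lam 1 = 1 := by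
  unfold flat
  rw [if_pos squarefree_one, H.one]

lemma flat_prime {p : ℕ} (hp : p.Prime) : flat lam p = lam p :=
  if_pos hp.squarefree

lemma flat_of_sq {p n : ℕ} (hp : p.Prime) (h : p * p ∣ n) : flat lam n = 0 := by
  apply if_neg
  intro hs
  exact hp.not_isUnit (hs p h)

lemma flat_abs_le (n : ℕ) : |flat lam n| ≤ |lam n| := by
  unfold flat
  split_ifs
  · exact le_rfl
  · simp

/-- `lam` as an arithmetic function -/
noncomputable def lamA (H : Hecke Q lam) : ArithmeticFunction ℝ := ⟨lam, H.zero⟩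

lemma lamA_mult (H : Hecke Q lam) : (lamA H).IsMultiplicative := ⟨H.one, fun h => H.mul _ _ h⟩

/-- `flat lam` as an arithmetic function -/
noncomputable def flatA (lam : ℕ → ℝ) : ArithmeticFunction ℝ := ⟨flat lam, flat_zero⟩

lemma flatA_mult (H : Hecke Q lam) : (flatA lam).IsMultiplicative :=
  ⟨flat_one H, fun h => flat_mul H h⟩

lemma v_pow {p : ℕ} (hp : p.Prime) (k : ℕ) : fp (vw Q lam) (p ^ k) =
    if k = 0 then 1 else vw Q lam p k := by
  split_ifs with h
  · rw [h, pow_zero, fp_one]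
  · exact fp_prime_pow _ hp h

lemma lamA_mul_v (H : Hecke Q lam) : lamA H * fpA (vw Q lam) = flatA lam := by
  rw [ArithmeticFunction.IsMultiplicative.eq_iff_eq_on_prime_powers _
    ((lamA_mult H).mul (fpA_mult _)) _ (flatA_mult H)]
  intro p k hp
  rw [ArithmeticFunction.mul_apply, Nat.sum_divisorsAntidiagonal fun i j =>
    (lamA H) i * (fpA (vw Q lam)) j, Nat.sum_divisors_prime_pow hp]
  have h1 : ∀ i ∈ Finset.range (k + 1), (lamA H) (p ^ i) * (fpA (vw Q lam)) (p ^ k / p ^ i) =
      lam (p ^ i) * (if k - i = 0 then 1 else vw Q lam p (k - i)) := by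
    intro i hi
    rw [Nat.pow_div (by simpa [Nat.lt_succ_iff] using hi) hp.pos, fpA_apply, v_pow hp]
    rfl
  rw [Finset.sum_congr rfl h1]
  show _ = flat lam (p ^ k)
  by_cases hQ : p ∣ Q
  · have h2 : ∀ i ∈ Finset.range (k + 1), lam (p ^ i) *
        (if k - i = 0 then 1 else vw Q lam p (k - i)) = if i = k then lam (p ^ k) else 0 := by
      intro i hi
      have hik : i ≤ k := by simpa [Nat.lt_succ_iff] using hi
      by_cases h : i = k
      · subst h
        simp
      · rw [if_neg (by omega), if_neg h, vw, if_pos hQ, mul_zero]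
    rw [Finset.sum_congr rfl h2, Finset.sum_ite_eq' (Finset.range (k + 1)) k, if_pos (by simp)]
    rcases k with _ | _ | k
    · simp [flat_one H, H.one]
    · rw [zero_add, pow_one, flat_prime hp]
    · rw [H.bad p (k + 1) hp hQ, flat_of_sq hp ⟨p ^ k, by ring⟩]
  · have hv : ∀ j, vw Q lam p j = if j = 2 then 1 - lam p ^ 2 else if j = 3 then lam p else 0 :=
      fun j => by rw [vw, if_neg hQ]
    simp_rw [hv]
    have e2 := H.hrec p 0 hp hQ
    simp only [zero_add, pow_one, pow_zero, H.one] at e2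
    rcases k with _ | _ | _ | k
    · simp [flat_one H, H.one]
    · rw [Finset.sum_range_succ, Finset.sum_range_succ, Finset.sum_range_zero, zero_add, pow_one,
        flat_prime hp]
      simp
    · rw [flat_of_sq hp ⟨1, by ring⟩]
      rw [Finset.sum_range_succ, Finset.sum_range_succ, Finset.sum_range_succ,
        Finset.sum_range_zero]
      simp only [zero_add, pow_zero, H.one, pow_one, e2]
      norm_num
      ring
    · rw [flat_of_sq hp ⟨p ^ (k + 1), by ring⟩]
      rw [show k + 1 + 1 + 1 + 1 = k + 4 from rfl, Finset.sum_range_succ, Finset.sum_range_succ,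
        Finset.sum_range_succ, Finset.sum_range_succ]
      have h3 : ∑ x ∈ Finset.range k, lam (p ^ x) * (if k + 1 + 1 + 1 - x = 0 then 1 else
          if k + 1 + 1 + 1 - x = 2 then 1 - lam p ^ 2 else
          if k + 1 + 1 + 1 - x = 3 then lam p else 0) = 0 := by
        apply Finset.sum_eq_zero
        intro x hx
        have hx' := Finset.mem_range.mp hx
        rw [if_neg (by omega), if_neg (by omega), if_neg (by omega), mul_zero]
      rw [h3]
      rw [if_neg (by omega : ¬ k + 1 + 1 + 1 - k = 0), if_neg (by omega : ¬ k + 1 + 1 + 1 - k = 2),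
        if_pos (by omega : k + 1 + 1 + 1 - k = 3),
        if_neg (by omega : ¬ k + 1 + 1 + 1 - (k + 1) = 0),
        if_pos (by omega : k + 1 + 1 + 1 - (k + 1) = 2),
        if_neg (by omega : ¬ k + 1 + 1 + 1 - (k + 2) = 0),
        if_neg (by omega : ¬ k + 1 + 1 + 1 - (k + 2) = 2),
        if_neg (by omega : ¬ k + 1 + 1 + 1 - (k + 2) = 3),
        if_pos (by omega : k + 1 + 1 + 1 - (k + 3) = 0)]
      have e3 := H.hrec p k hp hQ
      have e4 := H.hrec p (k + 1) hp hQ
      rw [show k + 1 + 2 = k + 3 from rfl, show k + 1 + 1 = k + 2 from rfl] at e4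
      rw [e4, e3]
      ring

lemma lam_conv_v (H : Hecke Q lam) (n : ℕ) :
    ∑ x ∈ n.divisorsAntidiagonal, lam x.1 * fp (vw Q lam) x.2 = flat lam n := by
  have h := congrArg (fun f : ArithmeticFunction ℝ => f n) (lamA_mul_v H)
  simp only [ArithmeticFunction.mul_apply] at h
  exact h

end Pool.Agent.Y705.QT
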