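import Mathlib
import Pool.Agent.Y705.QT0
import Pool.Agent.Y705.QT.Arith

set_option autoImplicit false

/-!
# Dirichlet series of the squarefree part (project QT)
-/

namespace Pool.Agent.Y705.QT

open Pool.Agent.Y19.QT Complex
open Pool.Agent.H306R2.RZ (js)

/-! ### general lemmas on L-series -/

lemma ls_bound (f : ℕ → ℂ) (g : ℕ → ℝ) (b : ℝ) (hg0 : ∀ n, 0 ≤ g n)
    (hg : Summable (fun n : ℕ => g n * (n : ℝ) ^ (-b))) (hfg : ∀ n, ‖f n‖ ≤ g n) (s : ℂ)
    (hs : b ≤ s.re) :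
    LSeriesSummable f s ∧ ‖LSeries f s‖ ≤ ∑' n : ℕ, g n * (n : ℝ) ^ (-b) := by
  have h1 : ∀ n : ℕ, ‖LSeries.term f s n‖ ≤ g n * (n : ℝ) ^ (-b) := by
    intro n
    rw [LSeries.norm_term_eq]
    split_ifs with hn
    · exact mul_nonneg (hg0 n) (Real.rpow_nonneg (Nat.cast_nonneg n) _)
    · rw [div_eq_mul_inv, ← Real.rpow_neg (Nat.cast_nonneg n)]
      have hn1 : (1 : ℝ) ≤ n := Nat.one_le_cast.mpr (Nat.one_le_iff_ne_zero.mpr hn)
      exact mul_le_mul (hfg n) (Real.rpow_le_rpow_of_exponent_le hn1 (by linarith))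
        (Real.rpow_nonneg (Nat.cast_nonneg n) _) (hg0 n)
  have h2 : Summable (fun n => ‖LSeries.term f s n‖) :=
    Summable.of_nonneg_of_le (fun n => norm_nonneg _) h1 hg
  refine ⟨h2.of_norm, ?_⟩
  refine (norm_tsum_le_tsum_norm h2).trans ?_
  exact Summable.tsum_le_tsum h1 h2 hg

lemma ls_diff (f : ℕ → ℂ) (x : ℝ) (h : ∀ y : ℝ, x < y → LSeriesSummable f y) :
    DifferentiableOn ℂ (LSeries f) {s | x < s.re} := by
  refine (LSeries_differentiableOn f).mono ?_
  intro s hs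
  simp only [Set.mem_ofPred_eq] at hs ⊢
  refine lt_of_le_of_lt (LSeries.abscissaOfAbsConv_le_of_forall_lt_LSeriesSummable h) ?_
  exact_mod_cast hs

lemma tsum_eq_ls (f : ℕ → ℂ) (hf : f 0 = 0) (s : ℂ) :
    ∑' n : ℕ, f n * (n : ℂ) ^ (-s) = LSeries f s := by
  rw [LSeries_def₀ hf]
  refine tsum_congr fun n => ?_
  rw [cpow_neg, div_eq_mul_inv]

/-! ### removing the Euler factor at a prime -/

/-- restriction of `h` to the integers prime to all elements of `S` -/
noncomputable def rs (h : ℕ → ℂ) (S : Finset ℕ) (n : ℕ) : ℂ := if ∀ p ∈ S, ¬ p ∣ n then h n else 0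

/-- the Euler factor `1 + h(p) p^{-s}` -/
noncomputable def ef (h : ℕ → ℂ) (p n : ℕ) : ℂ := (if n = 1 then 1 else 0) + if n = p then h p else 0

lemma rs_le (h : ℕ → ℂ) (S : Finset ℕ) (n : ℕ) : ‖rs h S n‖ ≤ ‖h n‖ := by
  unfold rs
  split_ifs
  · exact le_rfl
  · simp

lemma ef_sum (h : ℕ → ℂ) {p : ℕ} (hp : p.Prime) (s : ℂ) :
    LSeriesHasSum (ef h p) s (1 + h p * (p : ℂ) ^ (-s)) := by
  unfold LSeriesHasSum
  have h1 : LSeries.term (ef h p) s = fun n => (if n = 1 then (1 : ℂ) else 0) +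
      if n = p then h p * (p : ℂ) ^ (-s) else 0 := by
    funext n
    rcases eq_or_ne n 0 with rfl | hn
    · rw [LSeries.term_zero, if_neg (by norm_num), if_neg (fun h => hp.ne_zero h.symm), add_zero]
    · rw [LSeries.term_of_ne_zero hn]
      unfold ef
      by_cases h1 : n = 1
      · subst h1
        rw [if_pos rfl, if_neg hp.one_lt.ne, if_neg hp.one_lt.ne]
        simp
      · by_cases h2 : n = p
        · subst h2
          rw [if_neg h1, if_pos rfl, if_pos rfl, cpow_neg, div_eq_mul_inv, zero_add,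
            zero_add]
        · rw [if_neg h1, if_neg h2, if_neg h2]
          simp
  rw [h1]
  exact (hasSum_ite_eq 1 (1 : ℂ)).add (hasSum_ite_eq p _)

/-- multiplicative functions supported on squarefree integers -/
structure SqMul (h : ℕ → ℂ) : Prop where
  zero : h 0 = 0
  mul : ∀ m n : ℕ, m.Coprime n → h (m * n) = h m * h n
  sq : ∀ p n : ℕ, p.Prime → p * p ∣ n → h n = 0

lemma rs_conv (h : ℕ → ℂ) (H : SqMul h) (S : Finset ℕ) (hS : ∀ q ∈ S, q.Prime) {p : ℕ}
    (hp : p.Prime) (hpS : p ∉ S) : LSeries.convolution (rs h (insert p S)) (ef h p) = rs h S := by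
  funext n
  rw [LSeries.convolution_def]
  simp only
  rcases Nat.eq_zero_or_pos n with rfl | hn
  · simp [rs, H.zero]
  rw [Nat.sum_divisorsAntidiagonal' fun i j => rs h (insert p S) i * ef h p j]
  have h1 : ∀ i ∈ n.divisors, rs h (insert p S) (n / i) * ef h p i =
      (if i = 1 then rs h (insert p S) n else 0) +
      if i = p then rs h (insert p S) (n / p) * h p else 0 := by
    intro i _
    unfold ef
    by_cases e1 : i = 1
    · subst e1
      simp [hp.one_lt.ne]
    · by_cases e2 : i = p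
      · subst e2
        simp [e1]
      · simp [e1, e2]
  rw [Finset.sum_congr rfl h1, Finset.sum_add_distrib, Finset.sum_ite_eq', Finset.sum_ite_eq',
    if_pos (Nat.one_mem_divisors.mpr hn.ne')]
  by_cases hpn : p ∣ n
  · rw [if_pos (Nat.mem_divisors.mpr ⟨hpn, hn.ne'⟩)]
    obtain ⟨m, rfl⟩ := hpn
    rw [Nat.mul_div_cancel_left m hp.pos]
    have e1 : rs h (insert p S) (p * m) = 0 := by
      unfold rs
      rw [if_neg]
      intro hh
      exact hh p (Finset.mem_insert_self p S) (dvd_mul_right p m)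
    rw [e1, zero_add]
    by_cases hpm : p ∣ m
    · have e2 : rs h (insert p S) m = 0 := by
        unfold rs
        rw [if_neg]
        intro hh
        exact hh p (Finset.mem_insert_self p S) hpm
      have e3 : h (p * m) = 0 := H.sq p _ hp (mul_dvd_mul_left p hpm)
      rw [e2, zero_mul]
      unfold rs
      rw [e3, ite_self]
    · have hcop : p.Coprime m := (Nat.Prime.coprime_iff_not_dvd hp).mpr hpm
      have e2 : (∀ q ∈ insert p S, ¬ q ∣ m) ↔ ∀ q ∈ S, ¬ q ∣ p * m := by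
        rw [Finset.forall_mem_insert]
        constructor
        · rintro ⟨_, hh⟩ q hq hd
          rcases (Nat.Prime.dvd_mul (hS q hq)).mp hd with hd | hd
          · rw [(Nat.prime_dvd_prime_iff_eq (hS q hq) hp).mp hd] at hq
            exact hpS hq
          · exact hh q hq hd
        · intro hh
          exact ⟨hpm, fun q hq hd => hh q hq (hd.mul_left p)⟩
      unfold rs
      by_cases e3 : ∀ q ∈ S, ¬ q ∣ p * m
      · rw [if_pos (e2.mpr e3), if_pos e3, H.mul p m hcop, mul_comm]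
      · rw [if_neg (fun hh => e3 (e2.mp hh)), if_neg e3, zero_mul]
  · rw [if_neg (fun hh => hpn (Nat.mem_divisors.mp hh).1), add_zero]
    unfold rs
    have e2 : (∀ q ∈ insert p S, ¬ q ∣ n) ↔ ∀ q ∈ S, ¬ q ∣ n := by
      rw [Finset.forall_mem_insert]
      exact ⟨fun hh => hh.2, fun hh => ⟨hpn, hh⟩⟩
    by_cases e3 : ∀ q ∈ S, ¬ q ∣ n
    · rw [if_pos (e2.mpr e3), if_pos e3]
    · rw [if_neg (fun hh => e3 (e2.mp hh)), if_neg e3]

lemma rs_prod (h : ℕ → ℂ) (H : SqMul h) (s : ℂ) (hs : LSeriesSummable h s) (S : Finset ℕ)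
    (hS : ∀ q ∈ S, q.Prime) :
    LSeries h s = LSeries (rs h S) s * ∏ p ∈ S, (1 + h p * (p : ℂ) ^ (-s)) := by
  have hsum : ∀ S : Finset ℕ, LSeriesSummable (rs h S) s := by
    intro S
    unfold LSeriesSummable at hs ⊢
    rw [← summable_norm_iff] at hs ⊢
    exact Summable.of_nonneg_of_le (fun n => norm_nonneg _)
      (fun n => LSeries.norm_term_le s (rs_le h S n)) hs
  induction S using Finset.induction_on with
  | empty =>
    have e : rs h ∅ = h := by
      funext n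
      simp [rs]
    rw [Finset.prod_empty, mul_one, e]
  | insert p S hpS ih =>
    have hp : p.Prime := hS p (Finset.mem_insert_self p S)
    have hS' : ∀ q ∈ S, q.Prime := fun q hq => hS q (Finset.mem_insert_of_mem hq)
    rw [ih hS', Finset.prod_insert hpS, ← rs_conv h H S hS' hp hpS,
      LSeries_convolution' (hsum _) (ef_sum h hp s).LSeriesSummable, (ef_sum h hp s).LSeries_eq,
      mul_assoc]

/-! ### the series of `v` -/

variable {Q : ℕ} {lam : ℕ → ℝ}

lemma vw_abs (H : Hecke Q lam) {p : ℕ} (hp : p.Prime) :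
    |vw Q lam p 1| = 0 ∧ |vw Q lam p 2| ≤ 3 ∧ |vw Q lam p 3| ≤ 2 ∧
      ∀ k, 4 ≤ k → vw Q lam p k = 0 := by
  unfold vw
  by_cases hQ : p ∣ Q
  · simp [hQ]
  · have hb := H.bound p hp
    have hb' := abs_le.mp hb
    simp only [if_neg hQ]
    refine ⟨by norm_num, ?_, ?_, ?_⟩
    · rw [if_pos trivial, abs_le]
      constructor <;> nlinarith [sq_abs (lam p), abs_nonneg (lam p)]
    · norm_num
      exact hb
    · intro k hk
      rw [if_neg (by omega), if_neg (by omega)]

lemma v_sum (H : Hecke Q lam) (σ : ℝ) (h1 : 1 / 2 < σ) (h2 : σ ≤ 1) :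
    Summable (fun n : ℕ => |fp (vw Q lam) n| * (n : ℝ) ^ (-σ)) ∧
    ∑' n : ℕ, |fp (vw Q lam) n| * (n : ℝ) ^ (-σ) ≤ ((σ - 1 / 2)⁻¹) ^ 5 := by
  have h3 := QT0.T0 (fun n : ℕ => |fp (vw Q lam) n| * (n : ℝ) ^ (-σ)) 5 (2 * σ) (by linarith)
    (fun n => mul_nonneg (abs_nonneg _) (Real.rpow_nonneg (Nat.cast_nonneg n) _))
    (by simp [fp_zero]) (by simp [fp_one])
    (fun m n hmn => by
      rw [fp_mul _ hmn, abs_mul, Nat.cast_mul, Real.mul_rpow (Nat.cast_nonneg m)
        (Nat.cast_nonneg n)]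
      ring)
    (fun p hp => by
      have hp1 : (1 : ℝ) < p := by exact_mod_cast hp.one_lt
      obtain ⟨v1, v2, v3, v4⟩ := vw_abs H hp
      set x : ℝ := (p : ℝ) ^ (-σ) with hx
      have hx0 : 0 ≤ x := Real.rpow_nonneg (by positivity) _
      have hx1 : x < 1 := Real.rpow_lt_one_of_one_lt_of_neg hp1 (by linarith)
      have hpk : ∀ k : ℕ, ((p ^ k : ℕ) : ℝ) ^ (-σ) = x ^ k := by
        intro k
        rw [hx, Nat.cast_pow, ← Real.rpow_natCast, ← Real.rpow_natCast,
          ← Real.rpow_mul (by positivity), ← Real.rpow_mul (by positivity), mul_comm]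
      have hzero : ∀ k ∉ Finset.range 4, |fp (vw Q lam) (p ^ k)| * ((p ^ k : ℕ) : ℝ) ^ (-σ) = 0 := by
        intro k hk
        have hk' : 4 ≤ k := by simpa using hk
        rw [v_pow hp, if_neg (by omega), v4 k hk', abs_zero, zero_mul]
      have hs : HasSum (fun k : ℕ => |fp (vw Q lam) (p ^ k)| * ((p ^ k : ℕ) : ℝ) ^ (-σ))
          (∑ k ∈ Finset.range 4, |fp (vw Q lam) (p ^ k)| * ((p ^ k : ℕ) : ℝ) ^ (-σ)) :=
        hasSum_sum_of_ne_finset_zero hzero
      refine ⟨hs.summable, ?_⟩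
      rw [hs.tsum_eq]
      simp only [hpk, v_pow hp]
      rw [Finset.sum_range_succ, Finset.sum_range_succ, Finset.sum_range_succ,
        Finset.sum_range_succ, Finset.sum_range_zero]
      simp only [if_true, one_ne_zero, if_false, OfNat.ofNat_ne_zero]
      rw [v1]
      have hp2 : (p : ℝ) ^ (-(2 * σ)) = x ^ 2 := by
        rw [hx, ← Real.rpow_natCast, ← Real.rpow_mul (by positivity)]
        congr 1
        push_cast
        ring
      rw [hp2]
      have hy0 : 0 ≤ x ^ 2 := sq_nonneg x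
      have hy1 : x ^ 2 < 1 := by nlinarith
      have e1 : (1 + x ^ 2) ≤ (1 - x ^ 2)⁻¹ := by
        rw [← one_div, le_div_iff₀ (by linarith)]
        nlinarith
      have e2 : 1 + 5 * x ^ 2 ≤ (1 + x ^ 2) ^ 5 := by
        have := one_add_mul_le_pow (a := x ^ 2) (by linarith) 5
        push_cast at this
        linarith
      have e3 : (1 + x ^ 2) ^ 5 ≤ ((1 - x ^ 2)⁻¹) ^ 5 := pow_le_pow_left₀ (by positivity) e1 5
      have e4 : x ^ 3 ≤ x ^ 2 := pow_le_pow_of_le_one hx0 hx1.le (by norm_num)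
      have e5 : |vw Q lam p 2| * x ^ 2 ≤ 3 * x ^ 2 := by gcongr
      have e6 : |vw Q lam p 3| * x ^ 3 ≤ 2 * x ^ 2 := by
        calc |vw Q lam p 3| * x ^ 3 ≤ 2 * x ^ 3 := by gcongr
          _ ≤ 2 * x ^ 2 := by gcongr
      simp only [abs_one, pow_zero, mul_one, zero_mul, add_zero, zero_add]
      linarith)
  refine ⟨h3.1, h3.2.trans ?_⟩
  apply pow_le_pow_left₀ (by
    have : 0 < 1 / (2 * σ - 1) := one_div_pos.mpr (by linarith)
    linarith)
  have e1 : 0 < σ - 1 / 2 := by linarith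
  have e2 : 1 / (2 * σ - 1) = (1 / 2) * (σ - 1 / 2)⁻¹ := by
    rw [show 2 * σ - 1 = 2 * (σ - 1 / 2) by ring, one_div, mul_inv]
    ring
  have e3 : 2 ≤ (σ - 1 / 2)⁻¹ := by
    rw [le_inv_comm₀ (by norm_num) e1]
    linarith
  rw [e2]
  linarith

end Pool.Agent.Y705.QT
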